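import Pool.Agent.Y786.KR.Upper

/-!
Construction of free families with given lengths (helper786).
-/

namespace Pool.Agent.Y786.KR

open Finset Pool.Agent.Results.MP_689404_al.SphereRank.Lower

variable {r : ℕ} {ι : Type*}

/-- A family of elements `mk (P ++ [c]) * (mk Q)⁻¹` with incomparable prefix words, all of which
have a prefix in `X`. -/
def Fam (J : Finset ι) (l : ι → ℕ) (X : Finset (List (Fin r × Bool))) : Prop :=
  ∃ (P Q : ι → List (Fin r × Bool)) (c : ι → Fin r × Bool),
    (∀ j ∈ J, FreeGroup.IsReduced (P j ++ [c j]) ∧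
      FreeGroup.IsReduced (Q j ++ [((c j).1, !(c j).2)]) ∧
      (P j).length + 1 + (Q j).length = l j) ∧
    (∀ x y : ι × Bool, x.1 ∈ J → y.1 ∈ J → pre P Q c x <+: pre P Q c y → x = y) ∧
    (∀ x : ι × Bool, x.1 ∈ J → ∃ u ∈ X, u <+: pre P Q c x)

theorem combine [DecidableEq ι] (E J : Finset ι) (l : ι → ℕ)
    (X X' : Finset (List (Fin r × Bool))) (hX' : ∀ z ∈ X', ∃ u ∈ X, u <+: z)
    (P Q : ι → List (Fin r × Bool)) (c : ι → Fin r × Bool)
    (h1 : ∀ j ∈ E, FreeGroup.IsReduced (P j ++ [c j]) ∧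
      FreeGroup.IsReduced (Q j ++ [((c j).1, !(c j).2)]) ∧
      (P j).length + 1 + (Q j).length = l j)
    (h2 : ∀ x y : ι × Bool, x.1 ∈ E → y.1 ∈ E → pre P Q c x <+: pre P Q c y → x = y)
    (h3 : ∀ x : ι × Bool, x.1 ∈ E → ∃ u ∈ X, u <+: pre P Q c x)
    (h4 : ∀ x : ι × Bool, x.1 ∈ E → ∀ z ∈ X', ¬ (pre P Q c x <+: z) ∧ ¬ (z <+: pre P Q c x))
    (hJ : Fam J l X') : Fam (E ∪ J) l X := by
  obtain ⟨P', Q', c', g1, g2, g3⟩ := hJ
  refine ⟨fun j => if j ∈ E then P j else P' j, fun j => if j ∈ E then Q j else Q' j,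
    fun j => if j ∈ E then c j else c' j, ?_, ?_, ?_⟩
  · intro j hj
    by_cases hE : j ∈ E
    · simpa only [if_pos hE] using h1 j hE
    · have hj' : j ∈ J := by
        rcases mem_union.1 hj with h | h
        · exact absurd h hE
        · exact h
      simpa only [if_neg hE] using g1 j hj'
  · have hpre : ∀ x : ι × Bool, pre (fun j => if j ∈ E then P j else P' j)
        (fun j => if j ∈ E then Q j else Q' j) (fun j => if j ∈ E then c j else c' j) x =
        if x.1 ∈ E then pre P Q c x else pre P' Q' c' x := by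
      rintro ⟨j, b⟩
      cases b <;> by_cases hE : j ∈ E <;> simp [pre, hE]
    intro x y hx hy h
    rw [hpre, hpre] at h
    by_cases hxE : x.1 ∈ E <;> by_cases hyE : y.1 ∈ E
    · rw [if_pos hxE, if_pos hyE] at h
      exact h2 x y hxE hyE h
    · rw [if_pos hxE, if_neg hyE] at h
      have hyJ : y.1 ∈ J := (mem_union.1 hy).resolve_left hyE
      obtain ⟨z, hz, hzy⟩ := g3 y hyJ
      rcases List.prefix_or_prefix_of_prefix h hzy with h' | h'
      · exact absurd h' (h4 x hxE z hz).1
      · exact absurd h' (h4 x hxE z hz).2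
    · rw [if_neg hxE, if_pos hyE] at h
      have hxJ : x.1 ∈ J := (mem_union.1 hx).resolve_left hxE
      obtain ⟨z, hz, hzx⟩ := g3 x hxJ
      exact absurd (hzx.trans h) (h4 y hyE z hz).2
    · rw [if_neg hxE, if_neg hyE] at h
      exact g2 x y ((mem_union.1 hx).resolve_left hxE) ((mem_union.1 hy).resolve_left hyE) h
  · rintro ⟨j, b⟩ hj
    by_cases hE : j ∈ E
    · obtain ⟨u, hu, hu'⟩ := h3 (j, b) hE
      refine ⟨u, hu, ?_⟩
      cases b <;> simpa [pre, hE] using hu'
    · obtain ⟨z, hz, hz'⟩ := g3 (j, b) ((mem_union.1 hj).resolve_left hE)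
      obtain ⟨u, hu, hu'⟩ := hX' z hz
      refine ⟨u, hu, hu'.trans ?_⟩
      cases b <;> simpa [pre, hE] using hz'

theorem red_snoc (u : List (Fin r × Bool)) (t : Fin r × Bool) (hu : FreeGroup.IsReduced u)
    (h : u.getLast? ≠ some (t.1, !t.2)) : FreeGroup.IsReduced (u ++ [t]) := by
  unfold FreeGroup.IsReduced at hu ⊢
  rw [List.isChain_append]
  refine ⟨hu, List.isChain_singleton _, ?_⟩
  intro x hx y hy h1
  simp only [List.head?_cons, Option.mem_def, Option.some.injEq] at hy
  subst hy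
  by_contra hne
  apply h
  rw [Option.mem_def] at hx
  rw [hx]
  congr 1
  apply Prod.ext
  · exact h1
  · exact Bool.eq_not_of_ne hne

theorem exists_inj {α β : Type*} [DecidableEq α] [Inhabited β] (s : Finset α) (t : Finset β)
    (h : s.card ≤ t.card) :
    ∃ f : α → β, (∀ a ∈ s, f a ∈ t) ∧ ∀ a ∈ s, ∀ b ∈ s, f a = f b → a = b := by
  obtain ⟨e⟩ : Nonempty (s ↪ t) :=
    Function.Embedding.nonempty_of_card_le (by simpa using h)
  refine ⟨fun a => if h : a ∈ s then (e ⟨a, h⟩).1 else default, ?_, ?_⟩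
  · intro a ha
    simp only [dif_pos ha]
    exact (e ⟨a, ha⟩).2
  · intro a ha b hb hab
    simp only [dif_pos ha, dif_pos hb] at hab
    have := e.injective (Subtype.ext hab)
    exact congrArg Subtype.val this

/-- the words with last letter `s` -/
def lab (X : Finset (List (Fin r × Bool))) (s : Fin r × Bool) : Finset (List (Fin r × Bool)) :=
  X.filter (fun u => u.getLast? = some s)

theorem mem_lab {X : Finset (List (Fin r × Bool))} {s : Fin r × Bool}
    {u : List (Fin r × Bool)} : u ∈ lab X s ↔ u ∈ X ∧ u.getLast? = some s := by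
  simp [lab]

theorem card_eq (X : Finset (List (Fin r × Bool))) (d : ℕ) (hd : 1 ≤ d)
    (hX : ∀ u ∈ X, FreeGroup.IsReduced u ∧ u.length = d) (p : Fin r → ℕ)
    (hp : ∀ s : Fin r × Bool, (lab X s).card = p s.1) : X.card = 2 * ∑ i, p i := by
  have h1 : X = (univ : Finset (Fin r × Bool)).biUnion (lab X) := by
    ext u
    simp only [mem_biUnion, mem_univ, true_and, mem_lab, exists_and_left]
    constructor
    · intro hu
      refine ⟨hu, ?_⟩
      have : u ≠ [] := by
        rintro rfl
        have := (hX _ hu).2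
        simp at this
        omega
      exact ⟨u.getLast this, List.getLast?_eq_some_getLast this⟩
    · exact fun h => h.1
  have h2 : X.card = ∑ s : Fin r × Bool, p s.1 := by
    conv_lhs => rw [h1]
    rw [card_biUnion]
    · exact sum_congr rfl (fun s _ => hp s)
    · intro s _ s' _ hne
      rw [Function.onFun, disjoint_left]
      intro u hu hu'
      rw [mem_lab] at hu hu'
      have := hu.2.symm.trans hu'.2
      exact hne (by simpa using this)
  rw [h2, Fintype.sum_prod_type]
  simp only [Fintype.sum_bool]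
  rw [mul_sum]
  exact sum_congr rfl (fun i _ => by ring)

end Pool.Agent.Y786.KR
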