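import Pool.Agent.Y786.KR.Constr

/-!
The step of the construction for all elements of even length `2 d` (helper786).
-/

namespace Pool.Agent.Y786.KR

open Finset Pool.Agent.Results.MP_689404_al.SphereRank.Lower

variable {r : ℕ} {ι : Type*}

/-- the reduced one-letter extensions of the words of `U` -/
def child (U : Finset (List (Fin r × Bool))) : Finset (List (Fin r × Bool)) :=
  U.biUnion (fun u => ((univ : Finset (Fin r × Bool)).filter
    (fun t => u.getLast? ≠ some (t.1, !t.2))).image (fun t => u ++ [t]))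

theorem mem_child {U : Finset (List (Fin r × Bool))} {z : List (Fin r × Bool)} :
    z ∈ child U ↔ ∃ u ∈ U, ∃ t : Fin r × Bool, u.getLast? ≠ some (t.1, !t.2) ∧ u ++ [t] = z := by
  simp [child]

theorem lab_child (U : Finset (List (Fin r × Bool))) (t : Fin r × Bool) :
    lab (child U) t = (U.filter (fun u => u.getLast? ≠ some (t.1, !t.2))).image
      (fun u => u ++ [t]) := by
  ext z
  rw [mem_lab, mem_child, mem_image]
  constructor
  · rintro ⟨⟨u, hu, t', ht', rfl⟩, h⟩
    have : t' = t := by simpa using h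
    subst this
    exact ⟨u, mem_filter.2 ⟨hu, ht'⟩, rfl⟩
  · rintro ⟨u, hu, rfl⟩
    rw [mem_filter] at hu
    exact ⟨⟨u, hu.1, t, hu.2, rfl⟩, by simp⟩

theorem card_lab_child (U : Finset (List (Fin r × Bool))) (t : Fin r × Bool) :
    (lab (child U) t).card + (lab U (t.1, !t.2)).card = U.card := by
  rw [lab_child, card_image_of_injective _ (fun a b h => by simpa using h), lab, add_comm]
  exact card_filter_add_card_filter_not _

theorem stepB (hr : 1 ≤ r) [DecidableEq ι] (l : ι → ℕ) (d : ℕ) (hd : 1 ≤ d) (J : Finset ι)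
    (X : Finset (List (Fin r × Bool))) (p : Fin r → ℕ)
    (hl : ∀ j ∈ J, 2 * d ≤ l j)
    (hX : ∀ u ∈ X, FreeGroup.IsReduced u ∧ u.length = d)
    (hp : ∀ s : Fin r × Bool, (lab X s).card = p s.1)
    (heq : ∀ i j, p i ≤ p j + 1)
    (hm : ∑ j ∈ J, wt r (l j) ≤ (∑ i, (p i : ℝ)) / (r * (2 * r - 1 : ℝ) ^ (d - 1)))
    (IH : ∀ (J' : Finset ι) (X' : Finset (List (Fin r × Bool))) (p' : Fin r → ℕ),
      J' ⊆ J → (∀ j ∈ J', 2 * (d + 1) - 1 ≤ l j) →
      (∀ u ∈ X', FreeGroup.IsReduced u ∧ u.length = d + 1) →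
      (∀ s : Fin r × Bool, (lab X' s).card = p' s.1) →
      (∀ i j, p' i ≤ p' j + 1) →
      (∑ j ∈ J', wt r (l j) ≤ (∑ i, (p' i : ℝ)) / (r * (2 * r - 1 : ℝ) ^ (d + 1 - 1))) →
      Fam J' l X') : Fam J l X := by
  classical
  have h1r : (1 : ℝ) ≤ r := by exact_mod_cast hr
  have hq : (0 : ℝ) < 2 * r - 1 := by linarith
  have hD : (0 : ℝ) < r * (2 * r - 1 : ℝ) ^ (d - 1) := by positivity
  set E := J.filter (fun j => l j = 2 * d) with hE
  set J' := J.filter (fun j => ¬ l j = 2 * d) with hJ'
  have hJ : J = E ∪ J' := (filter_union_filter_not_eq _ _).symm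
  have hsum : ∑ j ∈ J, wt r (l j) = E.card * (1 / (2 * r - 1 : ℝ) ^ d) +
      ∑ j ∈ J', wt r (l j) := by
    rw [← sum_filter_add_sum_filter_not J (fun j => l j = 2 * d)]
    congr 1
    rw [← nsmul_eq_mul]
    apply sum_eq_card_nsmul
    intro j hj
    rw [(mem_filter.1 hj).2, wt_even]
  have hnn : 0 ≤ ∑ j ∈ J', wt r (l j) := sum_nonneg (fun j _ => wt_nonneg r _ hr)
  set Sp := ∑ i, p i with hSp
  have hSpR : (∑ i, (p i : ℝ)) = (Sp : ℝ) := by rw [hSp]; push_cast; rfl
  rw [hSpR] at hm
  have hpow : (2 * r - 1 : ℝ) ^ d = (2 * r - 1 : ℝ) ^ (d - 1) * (2 * r - 1) := by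
    rw [← pow_succ]
    congr 1
    omega
  -- the numerical inequality
  have hnum : (E.card : ℝ) * r + Sp ≤ 2 * r * Sp := by
    have h2 : (E.card : ℝ) * (1 / (2 * r - 1 : ℝ) ^ d) ≤
        Sp / (r * (2 * r - 1 : ℝ) ^ (d - 1)) := by linarith
    rw [hpow] at h2
    have hQ : 0 < (2 * r - 1 : ℝ) ^ (d - 1) := pow_pos hq _
    generalize (2 * r - 1 : ℝ) ^ (d - 1) = Q at *
    rw [mul_one_div, div_le_div_iff₀ (by positivity) (by positivity)] at h2
    have h3 : ((E.card : ℝ) * r) * Q ≤ (Sp * (2 * r - 1)) * Q := by nlinarith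
    have h4 := le_of_mul_le_mul_right h3 hQ
    nlinarith
  have hnumN : E.card * r + Sp ≤ 2 * r * Sp := by exact_mod_cast hnum
  have hcardX : X.card = 2 * Sp := card_eq X d hd hX p hp
  have hb : E.card ≤ 2 * Sp := by
    by_contra hcon
    push Not at hcon
    have : 2 * r * Sp < E.card * r + Sp := by
      have h5 : (2 * Sp + 1) * r ≤ E.card * r := Nat.mul_le_mul_right _ hcon
      nlinarith
    omega
  obtain ⟨V, hV⟩ : ∃ V, V + E.card = 2 * Sp := ⟨2 * Sp - E.card, by omega⟩
  have hVS : Sp ≤ r * V := by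
    have : r * (V + E.card) = r * (2 * Sp) := by rw [hV]
    nlinarith
  have hpV : ∀ i, p i ≤ V := by
    intro i
    by_contra hcon
    push Not at hcon
    have h6 : ∀ j, V ≤ p j := fun j => by
      have := heq i j
      omega
    have h7 : ∑ j : Fin r, V < ∑ j, p j :=
      sum_lt_sum (fun j _ => h6 j) ⟨i, mem_univ i, hcon⟩
    rw [sum_const, card_univ, Fintype.card_fin, smul_eq_mul, ← hSp] at h7
    omega
  -- the choice of `B`
  obtain ⟨B, hBX, hBc⟩ := Finset.exists_subset_card_eq (s := X) (n := E.card) (by omega)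
  set U := X \ B with hU
  have hUc : U.card = V := by
    rw [hU, card_sdiff_of_subset hBX, hBc, hcardX]
    omega
  have hUX : ∀ u ∈ U, u ∈ X ∧ u ∉ B := fun u hu => mem_sdiff.1 hu
  have hsplit : ∀ s : Fin r × Bool, (lab B s).card + (lab U s).card = p s.1 := by
    intro s
    rw [← hp s, ← card_union_of_disjoint]
    · congr 1
      ext z
      simp only [mem_union, mem_lab, hU, mem_sdiff]
      constructor
      · rintro (⟨h1, h2⟩ | ⟨⟨h1, h2⟩, h3⟩)
        · exact ⟨hBX h1, h2⟩
        · exact ⟨h1, h3⟩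
      · rintro ⟨h1, h2⟩
        by_cases hz : z ∈ B
        · exact Or.inl ⟨hz, h2⟩
        · exact Or.inr ⟨⟨h1, hz⟩, h2⟩
    · rw [disjoint_left]
      intro z h1 h2
      rw [mem_lab] at h1 h2
      exact (hUX z h2.1).2 h1.1
  -- matching
  obtain ⟨v, hv1, hv2⟩ := exists_inj E B hBc.ge
  have hg : ∀ s : Fin r × Bool, ∃ f : List (Fin r × Bool) → List (Fin r × Bool),
      (∀ a ∈ lab B s, f a ∈ U.filter (fun u => u.getLast? ≠ some s)) ∧
      ∀ a ∈ lab B s, ∀ b ∈ lab B s, f a = f b → a = b := by
    intro s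
    apply exists_inj
    have h8 : (U.filter (fun u => u.getLast? ≠ some s)).card + (lab U s).card = U.card := by
      rw [lab, add_comm]
      exact card_filter_add_card_filter_not _
    have h9 := hsplit s
    have h10 := hpV s.1
    omega
  choose g hg1 hg2 using hg
  let last : List (Fin r × Bool) → Fin r × Bool := fun w => w.getLast?.getD (⟨0, hr⟩, true)
  have hlast : ∀ w ∈ X, w.getLast? = some (last w) := by
    intro w hw
    have : w ≠ [] := by
      rintro rfl
      have := (hX _ hw).2
      simp at this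
      omega
    simp only [last]
    rw [List.getLast?_eq_some_getLast this]
    rfl
  let s : ι → Fin r × Bool := fun j => last (v j)
  let u : ι → List (Fin r × Bool) := fun j => g (s j) (v j)
  have hvlab : ∀ j ∈ E, v j ∈ lab B (s j) := fun j hj =>
    mem_lab.2 ⟨hv1 j hj, hlast _ (hBX (hv1 j hj))⟩
  have hu1 : ∀ j ∈ E, u j ∈ U ∧ (u j).getLast? ≠ some (s j) := fun j hj =>
    mem_filter.1 (hg1 (s j) (v j) (hvlab j hj))
  have hu2 : ∀ j ∈ E, ∀ j' ∈ E, u j = u j' → s j = s j' → j = j' := by
    intro j hj j' hj' h h'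
    apply hv2 j hj j' hj'
    apply hg2 (s j) (v j) (hvlab j hj) (v j') (by rw [h']; exact hvlab j' hj')
    have h3 : g (s j) (v j) = g (s j') (v j') := h
    rw [h3, h']
  have himg : E.image v = B := by
    apply eq_of_subset_of_card_le
    · intro w hw
      obtain ⟨j, hj, rfl⟩ := mem_image.1 hw
      exact hv1 j hj
    · rw [hBc, card_image_of_injOn]
      intro a ha b hb hab
      exact hv2 a ha b hb hab
  let R : Finset (List (Fin r × Bool)) := E.image (fun j => u j ++ [((s j).1, !(s j).2)])
  have hRsub : R ⊆ child U := by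
    intro z hz
    obtain ⟨j, hj, rfl⟩ := mem_image.1 hz
    rw [mem_child]
    refine ⟨u j, (hu1 j hj).1, ((s j).1, !(s j).2), ?_, rfl⟩
    simpa using (hu1 j hj).2
  have hRlab : ∀ t : Fin r × Bool, (lab R t).card = (lab B (t.1, !t.2)).card := by
    intro t
    have e1 : lab R t = (E.filter (fun j => s j = (t.1, !t.2))).image (fun j => u j ++ [t]) := by
      ext z
      rw [mem_lab]
      constructor
      · rintro ⟨h1, h2⟩
        obtain ⟨j, hj, rfl⟩ := mem_image.1 h1
        have h3 : ((s j).1, !(s j).2) = t := by simpa using h2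
        refine mem_image.2 ⟨j, mem_filter.2 ⟨hj, ?_⟩, ?_⟩
        · rw [← h3]
          simp
        · rw [h3]
      · intro hz
        obtain ⟨j, hj, rfl⟩ := mem_image.1 hz
        rw [mem_filter] at hj
        refine ⟨mem_image.2 ⟨j, hj.1, ?_⟩, by simp⟩
        rw [hj.2]
        simp
    have e2 : lab B (t.1, !t.2) = (E.filter (fun j => s j = (t.1, !t.2))).image v := by
      ext z
      rw [mem_lab, mem_image]
      constructor
      · rintro ⟨h1, h2⟩
        rw [← himg] at h1
        obtain ⟨j, hj, rfl⟩ := mem_image.1 h1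
        refine ⟨j, mem_filter.2 ⟨hj, ?_⟩, rfl⟩
        have := hlast _ (hBX (hv1 j hj))
        rw [h2] at this
        exact (Option.some.inj this).symm
      · rintro ⟨j, hj, rfl⟩
        rw [mem_filter] at hj
        refine ⟨hv1 j hj.1, ?_⟩
        rw [hlast _ (hBX (hv1 j hj.1)), ← hj.2]
    rw [e1, e2, card_image_of_injOn, card_image_of_injOn]
    · intro a ha b hb hab
      rw [mem_coe, mem_filter] at ha hb
      exact hv2 a ha.1 b hb.1 hab
    · intro a ha b hb hab
      rw [mem_coe, mem_filter] at ha hb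
      refine hu2 a ha.1 b hb.1 ?_ (ha.2.trans hb.2.symm)
      simpa using hab
  -- the words of the new elements
  have hpre : ∀ j b, pre u (fun j => (v j).dropLast) (fun j => ((s j).1, !(s j).2)) (j, b) =
      if b = true then u j ++ [((s j).1, !(s j).2)] else (v j).dropLast ++ [s j] := by
    intro j b
    cases b <;> simp [pre]
  have hvj : ∀ j ∈ E, (v j).dropLast ++ [s j] = v j := fun j hj =>
    List.dropLast_append_getLast? _ (hlast _ (hBX (hv1 j hj)))
  have hulen : ∀ j ∈ E, (u j).length = d := fun j hj => (hX _ (hUX _ (hu1 j hj).1).1).2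
  have hvlen : ∀ j ∈ E, (v j).length = d := fun j hj => (hX _ (hBX (hv1 j hj))).2
  have huv : ∀ j ∈ E, ∀ j' ∈ E, u j ≠ v j' := by
    intro j hj j' hj' h
    apply (hUX _ (hu1 j hj).1).2
    rw [h]
    exact hv1 j' hj'
  have hX' : ∀ z ∈ child U \ R, z ∉ R ∧ ∃ w ∈ U, ∃ t : Fin r × Bool,
      w.getLast? ≠ some (t.1, !t.2) ∧ w ++ [t] = z := by
    intro z hz
    rw [mem_sdiff, mem_child] at hz
    exact ⟨hz.2, hz.1⟩
  rw [hJ]
  refine combine E J' l X (child U \ R) ?_ u (fun j => (v j).dropLast)
    (fun j => ((s j).1, !(s j).2)) ?_ ?_ ?_ ?_ ?_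
  · intro z hz
    obtain ⟨-, w, hw, t, -, rfl⟩ := hX' z hz
    exact ⟨w, (hUX w hw).1, List.prefix_append _ _⟩
  · intro j hj
    simp only [Bool.not_not, Prod.mk.eta]
    refine ⟨?_, ?_, ?_⟩
    · apply red_snoc
      · exact (hX _ (hUX _ (hu1 j hj).1).1).1
      · simpa using (hu1 j hj).2
    · rw [hvj j hj]
      exact (hX _ (hBX (hv1 j hj))).1
    · rw [List.length_dropLast, hulen j hj, hvlen j hj, (mem_filter.1 hj).2]
      omega
  · rintro ⟨j, b⟩ ⟨j', b'⟩ hj hj' h
    simp only at hj hj'
    rw [hpre, hpre] at h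
    cases b <;> cases b'
    · simp only [Bool.false_eq_true, if_false] at h
      rw [hvj j hj, hvj j' hj'] at h
      rw [hv2 j hj j' hj' (h.eq_of_length (by rw [hvlen j hj, hvlen j' hj']))]
    · simp only [Bool.false_eq_true, if_false, if_true] at h
      rw [hvj j hj] at h
      have h3 := List.prefix_of_prefix_length_le h (List.prefix_append _ _)
        (by rw [hvlen j hj, hulen j' hj'])
      exact absurd (h3.eq_of_length (by rw [hvlen j hj, hulen j' hj'])).symm (huv j' hj' j hj)
    · simp only [Bool.false_eq_true, if_false, if_true] at h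
      rw [hvj j' hj'] at h
      have := h.length_le
      rw [List.length_append, hulen j hj, hvlen j' hj'] at this
      simp at this
    · simp only [if_true] at h
      have h3 := h.eq_of_length (by simp [hulen j hj, hulen j' hj'])
      obtain ⟨h4, h5⟩ := List.append_inj' h3 rfl
      have h6 : s j = s j' := by
        simp only [List.cons.injEq, and_true, Prod.mk.injEq] at h5
        apply Prod.ext
        · exact h5.1
        · simpa using h5.2
      rw [hu2 j hj j' hj' h4 h6]
  · rintro ⟨j, b⟩ hj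
    simp only at hj
    rw [hpre]
    cases b
    · refine ⟨v j, hBX (hv1 j hj), ?_⟩
      simp only [Bool.false_eq_true, if_false]
      rw [hvj j hj]
    · exact ⟨u j, (hUX _ (hu1 j hj).1).1, by simp⟩
  · rintro ⟨j, b⟩ hj z hz
    simp only at hj
    obtain ⟨hzR, w, hw, t, -, rfl⟩ := hX' z hz
    have hwlen : w.length = d := (hX _ (hUX _ hw).1).2
    rw [hpre]
    cases b
    · simp only [Bool.false_eq_true, if_false]
      rw [hvj j hj]
      constructor
      · intro h
        have h3 := List.prefix_of_prefix_length_le h (List.prefix_append _ _)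
          (by rw [hvlen j hj, hwlen])
        have h4 := h3.eq_of_length (by rw [hvlen j hj, hwlen])
        apply (hUX _ hw).2
        rw [← h4]
        exact hv1 j hj
      · intro h
        have := h.length_le
        rw [List.length_append, hwlen, hvlen j hj] at this
        simp at this
    · simp only [if_true]
      have hmem : u j ++ [((s j).1, !(s j).2)] ∈ R := mem_image.2 ⟨j, hj, rfl⟩
      constructor
      · intro h
        apply hzR
        rw [← h.eq_of_length (by simp [hulen j hj, hwlen])]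
        exact hmem
      · intro h
        apply hzR
        rw [h.eq_of_length (by simp [hulen j hj, hwlen])]
        exact hmem
  · apply IH J' (child U \ R) (fun i => V - p i) (filter_subset _ _)
    · intro j hj
      rw [mem_filter] at hj
      have := hl j hj.1
      omega
    · intro z hz
      obtain ⟨-, w, hw, t, ht, rfl⟩ := hX' z hz
      refine ⟨red_snoc w t (hX _ (hUX _ hw).1).1 ht, ?_⟩
      rw [List.length_append, (hX _ (hUX _ hw).1).2]
      rfl
    · intro t
      have e3 : lab (child U \ R) t = lab (child U) t \ lab R t := by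
        ext z
        simp only [mem_lab, mem_sdiff, not_and]
        tauto
      have e4 : lab R t ⊆ lab (child U) t := by
        intro z hz
        rw [mem_lab] at hz ⊢
        exact ⟨hRsub hz.1, hz.2⟩
      rw [e3, card_sdiff_of_subset e4, hRlab]
      have e5 := card_lab_child U t
      have e6 := hsplit (t.1, !t.2)
      simp only at e6
      omega
    · intro i j
      have h1 := heq j i
      have h2 := hpV i
      have h3 := hpV j
      omega
    · have h11 : (∑ i, ((V - p i : ℕ) : ℝ)) = r * V - Sp := by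
        have : ∀ i, ((V - p i : ℕ) : ℝ) = V - p i := fun i => Nat.cast_sub (hpV i)
        simp only [this, sum_sub_distrib, sum_const, card_univ, Fintype.card_fin, nsmul_eq_mul]
        rw [hSpR]
      rw [h11]
      have hVR : (V : ℝ) = 2 * Sp - E.card := by
        have : (V : ℝ) + E.card = 2 * Sp := by exact_mod_cast hV
        linarith
      have h12 : ∑ j ∈ J', wt r (l j) ≤ Sp / (r * (2 * r - 1 : ℝ) ^ (d - 1)) -
          E.card * (1 / (2 * r - 1 : ℝ) ^ d) := by linarith
      refine h12.trans (le_of_eq ?_)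
      rw [Nat.add_sub_cancel, hVR, hpow]
      have hQ : (2 * r - 1 : ℝ) ^ (d - 1) ≠ 0 := (pow_pos hq _).ne'
      generalize (2 * r - 1 : ℝ) ^ (d - 1) = Q at *
      have hq' : (2 * r - 1 : ℝ) ≠ 0 := hq.ne'
      have hr' : (r : ℝ) ≠ 0 := by positivity
      rw [mul_one_div, div_sub_div _ _ (by positivity) (by positivity),
        div_eq_div_iff (by positivity) (by positivity)]
      ring

end Pool.Agent.Y786.KR
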