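import Pool.Agent.Y786.KR.StepA
import Pool.Agent.Y786.KR.StepB

/-!
Free families with given lengths (helper786).
-/

namespace Pool.Agent.Y786.KR

open Finset Pool.Agent.Results.MP_689404_al.SphereRank.Lower

variable {r : ℕ}

theorem main (hr : 1 ≤ r) {ι : Type*} [DecidableEq ι] (l : ι → ℕ) (L : ℕ) :
    ∀ (m d : ℕ) (J : Finset ι) (X : Finset (List (Fin r × Bool))) (p : Fin r → ℕ),
      J.card + (L + 1 - d) ≤ m → 1 ≤ d → (∀ j ∈ J, 2 * d - 1 ≤ l j ∧ l j ≤ 2 * L) →
      (∀ u ∈ X, FreeGroup.IsReduced u ∧ u.length = d) →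
      (∀ s : Fin r × Bool, (lab X s).card = p s.1) → (∀ i j, p i ≤ p j + 1) →
      (∑ j ∈ J, wt r (l j) ≤ (∑ i, (p i : ℝ)) / (r * (2 * r - 1 : ℝ) ^ (d - 1))) →
      Fam J l X := by
  intro m
  induction m with
  | zero =>
    intro d J X p hm _ _ _ _ _ _
    have : J = ∅ := card_eq_zero.1 (by omega)
    subst this
    exact ⟨fun _ => [], fun _ => [], fun _ => (⟨0, hr⟩, true), by simp, by simp, by simp⟩
  | succ m ih =>
    intro d J X p hm hd hl hX hp heq hmass
    rcases J.eq_empty_or_nonempty with hJ | hJ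
    · subst hJ
      exact ⟨fun _ => [], fun _ => [], fun _ => (⟨0, hr⟩, true), by simp, by simp, by simp⟩
    have hdL : d ≤ L := by
      obtain ⟨j, hj⟩ := hJ
      have := hl j hj
      omega
    by_cases hodd : ∃ j ∈ J, l j = 2 * d - 1
    · obtain ⟨j0, hj0, hl0⟩ := hodd
      apply stepA hr l d hd J X p j0 hj0 hl0 hX hp heq hmass
      intro X' p' h1 h2 h3 h4
      apply ih d (J.erase j0) X' p' _ hd _ h1 h2 h3 h4
      · rw [card_erase_of_mem hj0]
        have := card_pos.2 ⟨j0, hj0⟩
        omega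
      · intro j hj
        exact hl j (mem_of_mem_erase hj)
    · push Not at hodd
      apply stepB hr l d hd J X p _ hX hp heq hmass
      · intro J' X' p' h0 h00 h1 h2 h3 h4
        apply ih (d + 1) J' X' p' _ (by omega) _ h1 h2 h3 h4
        · have := card_le_card h0
          omega
        · intro j hj
          exact ⟨h00 j hj, (hl j (h0 hj)).2⟩
      · intro j hj
        have h1 := hl j hj
        have h2 := hodd j hj
        omega

/-- the construction for finite sets of indices -/
theorem exists_family (hr : 1 ≤ r) {ι : Type*} (l : ι → ℕ) (J : Finset ι)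
    (h1 : ∀ j ∈ J, 1 ≤ l j) (h2 : ∑ j ∈ J, wt r (l j) ≤ 1) :
    ∃ a : ι → FreeGroup (Fin r), (∀ j ∈ J, (a j).norm = l j) ∧
      Function.Injective (FreeGroup.lift (fun j : J => a j)) := by
  classical
  have hr0 : (r : ℝ) ≠ 0 := by
    have : (1 : ℝ) ≤ r := by exact_mod_cast hr
    positivity
  obtain ⟨P, Q, c, g1, g2, g3⟩ : Fam J l
      ((univ : Finset (Fin r × Bool)).image (fun s => [s])) := by
    apply main hr l (∑ j ∈ J, l j) _ 1 J _ (fun _ => 1) le_rfl le_rfl
    · intro j hj
      have h3 := h1 j hj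
      have h4 : l j ≤ ∑ j ∈ J, l j := single_le_sum (f := l) (fun _ _ => Nat.zero_le _) hj
      omega
    · intro u hu
      obtain ⟨s, -, rfl⟩ := mem_image.1 hu
      exact ⟨FreeGroup.IsReduced.singleton, rfl⟩
    · intro s
      have : lab ((univ : Finset (Fin r × Bool)).image (fun s => [s])) s = {[s]} := by
        ext u
        rw [mem_lab, mem_singleton]
        constructor
        · rintro ⟨h3, h4⟩
          obtain ⟨t, -, rfl⟩ := mem_image.1 h3
          simpa using h4
        · rintro rfl
          exact ⟨mem_image.2 ⟨s, mem_univ _, rfl⟩, by simp⟩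
      rw [this]
      rfl
    · intro i j
      omega
    · simp only [Nat.cast_one, sum_const, card_univ, Fintype.card_fin, nsmul_eq_mul, mul_one,
        Nat.sub_self, pow_zero]
      rw [div_self hr0]
      exact h2
  refine ⟨fun j => FreeGroup.mk (P j ++ [c j]) * (FreeGroup.mk (Q j))⁻¹, ?_, ?_⟩
  · intro j hj
    obtain ⟨h3, h4, h5⟩ := g1 j hj
    rw [norm_elt _ _ _ h3 h4, h5]
  · apply free_family (fun j : J => P j) (fun j : J => Q j) (fun j : J => c j)
      (fun j => (g1 j j.2).1) (fun j => (g1 j j.2).2.1)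
    rintro ⟨j, b⟩ ⟨j', b'⟩ h
    have h3 : pre P Q c ((j : ι), b) <+: pre P Q c ((j' : ι), b') := by
      cases b <;> cases b' <;> exact h
    have h4 := g2 _ _ j.2 j'.2 h3
    rw [Prod.mk.injEq] at h4
    rw [Prod.mk.injEq]
    exact ⟨Subtype.ext h4.1, h4.2⟩

theorem exists_support {ι : Type*} (w : FreeGroup ι) :
    ∃ (s : Finset ι) (w' : FreeGroup s), FreeGroup.map (fun i : s => (i : ι)) w' = w := by
  classical
  induction w using FreeGroup.induction_on with
  | C1 => exact ⟨∅, 1, map_one _⟩
  | of i => exact ⟨{i}, FreeGroup.of ⟨i, mem_singleton_self i⟩, by simp⟩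
  | inv_of i _ => exact ⟨{i}, (FreeGroup.of ⟨i, mem_singleton_self i⟩)⁻¹, by simp⟩
  | mul x y hx hy =>
    obtain ⟨s, x', hx'⟩ := hx
    obtain ⟨t, y', hy'⟩ := hy
    refine ⟨s ∪ t, FreeGroup.map (fun i : s => ⟨i.1, mem_union_left _ i.2⟩) x' *
      FreeGroup.map (fun i : t => ⟨i.1, mem_union_right _ i.2⟩) y', ?_⟩
    rw [map_mul, FreeGroup.map.comp, FreeGroup.map.comp, ← hx', ← hy']
    rfl

theorem inj_of_finite {ι G : Type*} [Group G] (a : ι → G)
    (h : ∀ s : Finset ι, Function.Injective (FreeGroup.lift (fun i : s => a i))) :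
    Function.Injective (FreeGroup.lift a) := by
  rw [injective_iff_map_eq_one]
  intro w hw
  obtain ⟨s, w', rfl⟩ := exists_support w
  have h1 : FreeGroup.lift (fun i : s => a i) w' = 1 := by
    rw [← hw]
    have h2 : FreeGroup.lift (fun i : s => a i) =
        (FreeGroup.lift a).comp (FreeGroup.map (fun i : s => (i : ι))) := by
      ext i
      simp
    rw [h2]
    rfl
  have h3 := (injective_iff_map_eq_one _).1 (h s) w' h1
  rw [h3, map_one]

theorem inj_restrict {ι G : Type*} [Group G] (a : ι → G) {s t : Finset ι} (hst : s ⊆ t)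
    (h : Function.Injective (FreeGroup.lift (fun i : t => a i))) :
    Function.Injective (FreeGroup.lift (fun i : s => a i)) := by
  have h2 : FreeGroup.lift (fun i : s => a i) =
      (FreeGroup.lift (fun i : t => a i)).comp
        (FreeGroup.map (fun i : s => (⟨i.1, hst i.2⟩ : t))) := by
    ext i
    simp
  rw [h2]
  refine h.comp (FreeGroup.map_injective ?_)
  intro x y hxy
  exact Subtype.ext (congrArg (fun z : t => (z : ι)) hxy)

/-- **The Kraft theorem for free groups.** -/
theorem kraft_iff (hr : 1 ≤ r) {ι : Type*} (l : ι → ℕ) :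
    (∃ a : ι → FreeGroup (Fin r), Function.Injective (FreeGroup.lift a) ∧
      ∀ i, (a i).norm = l i) ↔
    (∀ i, 1 ≤ l i) ∧ Summable (fun i => wt r (l i)) ∧ ∑' i, wt r (l i) ≤ 1 := by
  classical
  constructor
  · rintro ⟨a, ha, hn⟩
    have h1 := kraft hr a ha
    simp only [hn] at h1
    refine ⟨fun i => ?_, h1⟩
    by_contra hcon
    have h2 : (a i).norm = 0 := by rw [hn]; omega
    rw [FreeGroup.norm_eq_zero] at h2
    have h3 : FreeGroup.lift a (FreeGroup.of i) = FreeGroup.lift a 1 := by
      rw [FreeGroup.lift_apply_of, map_one, h2]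
    exact FreeGroup.of_ne_one i (ha h3)
  · rintro ⟨h1, h2, h3⟩
    have hpart : ∀ J : Finset ι, ∑ j ∈ J, wt r (l j) ≤ 1 := fun J =>
      (h2.sum_le_tsum J (fun i _ => wt_nonneg r _ hr)).trans h3
    have hfam := fun J : Finset ι => exists_family hr l J (fun j _ => h1 j) (hpart J)
    choose a ha1 ha2 using hfam
    have hfin : ∀ i : ι, Finite {g : FreeGroup (Fin r) // g.norm = l i} := by
      intro i
      apply Set.Finite.to_subtype
      apply Set.Finite.subset
        (Pool.Agent.Results.MP_689404_al.SphereRank.Count.ball r (l i)).finite_toSet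
      intro g hg
      rw [mem_coe, Pool.Agent.Results.MP_689404_al.SphereRank.Count.mem_ball]
      exact le_of_eq hg
    let G : Finset ι → (i : ι) → {g : FreeGroup (Fin r) // g.norm = l i} := fun s i =>
      if h : i ∈ s then ⟨a s i, ha1 s i h⟩
      else ⟨a {i} i, ha1 {i} i (mem_singleton_self i)⟩
    obtain ⟨χ, hχ⟩ := Finset.rado_selection G
    refine ⟨fun i => (χ i).1, ?_, fun i => (χ i).2⟩
    apply inj_of_finite
    intro s
    obtain ⟨t, hst, ht⟩ := hχ s
    have h4 : (fun i : s => (χ i).1) = fun i : s => a t i := by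
      funext i
      have h5 := ht i i.2
      rw [h5]
      simp only [G, dif_pos (hst i.2)]
    rw [h4]
    exact inj_restrict (a t) hst (ha2 t)

end Pool.Agent.Y786.KR
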