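import Pool.Agent.Y786.KR.Constr

/-!
The step of the construction for one element of odd length `2 d - 1` (helper786).
-/

namespace Pool.Agent.Y786.KR

open Finset Pool.Agent.Results.MP_689404_al.SphereRank.Lower

variable {r : ℕ} {ι : Type*}

theorem stepA (hr : 1 ≤ r) [DecidableEq ι] (l : ι → ℕ) (d : ℕ) (hd : 1 ≤ d) (J : Finset ι)
    (X : Finset (List (Fin r × Bool))) (p : Fin r → ℕ) (j0 : ι) (hj0 : j0 ∈ J)
    (hl0 : l j0 = 2 * d - 1)
    (hX : ∀ u ∈ X, FreeGroup.IsReduced u ∧ u.length = d)
    (hp : ∀ s : Fin r × Bool, (lab X s).card = p s.1)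
    (heq : ∀ i j, p i ≤ p j + 1)
    (hm : ∑ j ∈ J, wt r (l j) ≤ (∑ i, (p i : ℝ)) / (r * (2 * r - 1 : ℝ) ^ (d - 1)))
    (IH : ∀ (X' : Finset (List (Fin r × Bool))) (p' : Fin r → ℕ),
      (∀ u ∈ X', FreeGroup.IsReduced u ∧ u.length = d) →
      (∀ s : Fin r × Bool, (lab X' s).card = p' s.1) →
      (∀ i j, p' i ≤ p' j + 1) →
      (∑ j ∈ J.erase j0, wt r (l j) ≤ (∑ i, (p' i : ℝ)) / (r * (2 * r - 1 : ℝ) ^ (d - 1))) →
      Fam (J.erase j0) l X') : Fam J l X := by
  classical
  have h1r : (1 : ℝ) ≤ r := by exact_mod_cast hr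
  have hq : (0 : ℝ) < 2 * r - 1 := by linarith
  have hD : (0 : ℝ) < r * (2 * r - 1 : ℝ) ^ (d - 1) := by positivity
  have hw : wt r (l j0) = 1 / (r * (2 * r - 1 : ℝ) ^ (d - 1)) := by
    have : l j0 = 2 * (d - 1) + 1 := by omega
    rw [this, wt_odd]
  have hsum : ∑ j ∈ J, wt r (l j) = wt r (l j0) + ∑ j ∈ J.erase j0, wt r (l j) :=
    (add_sum_erase J _ hj0).symm
  have hnn : 0 ≤ ∑ j ∈ J.erase j0, wt r (l j) := sum_nonneg (fun j _ => wt_nonneg r _ hr)
  have hSp : (1 : ℝ) ≤ ∑ i, (p i : ℝ) := by
    have h2 : 1 / (r * (2 * r - 1 : ℝ) ^ (d - 1)) ≤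
        (∑ i, (p i : ℝ)) / (r * (2 * r - 1 : ℝ) ^ (d - 1)) := by linarith
    exact (div_le_div_iff_of_pos_right hD).1 h2
  obtain ⟨i0, -, hmax⟩ := Finset.exists_max_image (univ : Finset (Fin r)) p ⟨⟨0, hr⟩, mem_univ _⟩
  have hpi : 1 ≤ p i0 := by
    by_contra hcon
    have h3 : ∀ i, p i = 0 := fun i => by
      have := hmax i (mem_univ i)
      omega
    simp [h3] at hSp
    linarith
  obtain ⟨u, hu⟩ : (lab X (i0, true)).Nonempty := by
    rw [← card_pos, hp]
    exact hpi
  obtain ⟨v, hv⟩ : (lab X (i0, false)).Nonempty := by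
    rw [← card_pos, hp]
    exact hpi
  have hu' := mem_lab.1 hu
  have hv' := mem_lab.1 hv
  have huv : u ≠ v := by
    rintro rfl
    have := hu'.2.symm.trans hv'.2
    simp at this
  have eu : u.dropLast ++ [(i0, true)] = u := List.dropLast_append_getLast? _ hu'.2
  have ev : v.dropLast ++ [(i0, false)] = v := List.dropLast_append_getLast? _ hv'.2
  have hJ : J = {j0} ∪ J.erase j0 := by
    ext j
    simp only [mem_union, mem_singleton, mem_erase]
    constructor
    · intro h
      by_cases h' : j = j0
      · exact Or.inl h'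
      · exact Or.inr ⟨h', h⟩
    · rintro (rfl | h)
      · exact hj0
      · exact h.2
  have hlen : ∀ z ∈ (X.erase u).erase v, z ∈ X ∧ z ≠ u ∧ z ≠ v := by
    intro z hz
    rw [mem_erase, mem_erase] at hz
    exact ⟨hz.2.2, hz.2.1, hz.1⟩
  have hpu : ∀ x : ι × Bool, pre (fun _ => u.dropLast) (fun _ => v.dropLast)
      (fun _ => (i0, true)) x = if x.2 = true then u else v := by
    rintro ⟨j, b⟩
    cases b
    · simpa [pre] using ev
    · simpa [pre] using eu
  rw [hJ]
  refine combine {j0} (J.erase j0) l X ((X.erase u).erase v) ?_ (fun _ => u.dropLast)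
    (fun _ => v.dropLast) (fun _ => (i0, true)) ?_ ?_ ?_ ?_ ?_
  · intro z hz
    exact ⟨z, (hlen z hz).1, List.prefix_rfl⟩
  · intro j hj
    rw [mem_singleton] at hj
    subst hj
    simp only [Bool.not_true]
    rw [eu, ev]
    refine ⟨(hX u hu'.1).1, (hX v hv'.1).1, ?_⟩
    rw [List.length_dropLast, List.length_dropLast, (hX u hu'.1).2, (hX v hv'.1).2, hl0]
    omega
  · rintro ⟨j, b⟩ ⟨j', b'⟩ hj hj' h
    rw [mem_singleton] at hj hj'
    simp only at hj hj'
    subst hj hj'
    rw [hpu, hpu] at h
    cases b <;> cases b'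
    · rfl
    · simp only [Bool.false_eq_true, if_false, if_true] at h
      exact absurd (h.eq_of_length (by rw [(hX u hu'.1).2, (hX v hv'.1).2])).symm huv
    · simp only [Bool.false_eq_true, if_false, if_true] at h
      exact absurd (h.eq_of_length (by rw [(hX u hu'.1).2, (hX v hv'.1).2])) huv
    · rfl
  · rintro ⟨j, b⟩ _
    rw [hpu]
    cases b
    · exact ⟨v, hv'.1, by simp⟩
    · exact ⟨u, hu'.1, by simp⟩
  · rintro ⟨j, b⟩ _ z hz
    obtain ⟨hz1, hz2, hz3⟩ := hlen z hz
    rw [hpu]
    have lz := (hX z hz1).2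
    have lu := (hX u hu'.1).2
    have lv := (hX v hv'.1).2
    cases b
    · simp only [Bool.false_eq_true, if_false]
      refine ⟨fun h => ?_, fun h => ?_⟩
      · exact hz3 (h.eq_of_length (by rw [lz, lv])).symm
      · exact hz3 (h.eq_of_length (by rw [lz, lv]))
    · simp only [if_true]
      refine ⟨fun h => ?_, fun h => ?_⟩
      · exact hz2 (h.eq_of_length (by rw [lz, lu])).symm
      · exact hz2 (h.eq_of_length (by rw [lz, lu]))
  · apply IH _ (Function.update p i0 (p i0 - 1))
    · intro z hz
      exact hX z (hlen z hz).1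
    · rintro ⟨i, b⟩
      by_cases hi : i = i0
      · subst hi
        simp only [Function.update_self]
        cases b
        · have : lab ((X.erase u).erase v) (i, false) = (lab X (i, false)).erase v := by
            ext z
            simp only [mem_lab, mem_erase]
            constructor
            · rintro ⟨⟨h1, h2, h3⟩, h4⟩
              exact ⟨h1, h3, h4⟩
            · rintro ⟨h1, h3, h4⟩
              refine ⟨⟨h1, ?_, h3⟩, h4⟩
              rintro rfl
              have := hu'.2.symm.trans h4
              simp at this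
          rw [this, card_erase_of_mem hv, hp]
        · have : lab ((X.erase u).erase v) (i, true) = (lab X (i, true)).erase u := by
            ext z
            simp only [mem_lab, mem_erase]
            constructor
            · rintro ⟨⟨h1, h2, h3⟩, h4⟩
              exact ⟨h2, h3, h4⟩
            · rintro ⟨h1, h3, h4⟩
              refine ⟨⟨?_, h1, h3⟩, h4⟩
              rintro rfl
              have := hv'.2.symm.trans h4
              simp at this
          rw [this, card_erase_of_mem hu, hp]
      · simp only [Function.update_of_ne hi]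
        rw [← hp (i, b)]
        congr 1
        ext z
        simp only [mem_lab, mem_erase]
        constructor
        · rintro ⟨⟨h1, h2, h3⟩, h4⟩
          exact ⟨h3, h4⟩
        · rintro ⟨h3, h4⟩
          refine ⟨⟨?_, ?_, h3⟩, h4⟩
          · rintro rfl
            have := hv'.2.symm.trans h4
            simp at this
            exact hi this.1.symm
          · rintro rfl
            have := hu'.2.symm.trans h4
            simp at this
            exact hi this.1.symm
    · intro i j
      by_cases hi : i = i0 <;> by_cases hj : j = i0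
      · subst hi; subst hj; omega
      · subst hi
        simp only [Function.update_self, Function.update_of_ne hj]
        have := heq i j
        omega
      · subst hj
        simp only [Function.update_self, Function.update_of_ne hi]
        have := hmax i (mem_univ i)
        omega
      · simp only [Function.update_of_ne hi, Function.update_of_ne hj]
        exact heq i j
    · have h5 : ∑ i, ((Function.update p i0 (p i0 - 1) i : ℕ) : ℝ) = ∑ i, (p i : ℝ) - 1 := by
        rw [← add_sum_erase univ (fun i => ((Function.update p i0 (p i0 - 1) i : ℕ) : ℝ))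
          (mem_univ i0), ← add_sum_erase univ (fun i => (p i : ℝ)) (mem_univ i0)]
        have h6 : ∑ x ∈ univ.erase i0, ((Function.update p i0 (p i0 - 1) x : ℕ) : ℝ) =
            ∑ x ∈ univ.erase i0, (p x : ℝ) := by
          refine sum_congr rfl (fun x hx => ?_)
          rw [Function.update_of_ne (ne_of_mem_erase hx)]
        rw [h6]
        simp only [Function.update_self]
        rw [Nat.cast_sub hpi]
        push_cast
        ring
      rw [h5, sub_div]
      linarith

end Pool.Agent.Y786.KR
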