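import Pool.Agent.Results.MP_689404_al.SphereRank

/-!
Kraft inequality for free bases in free groups (helper786).
-/

namespace Pool.Agent.Y786.KR

open Finset Pool.Agent.Results.MP_689404_al.SphereRank.Count
  Pool.Agent.Results.MP_689404_al.SphereRank.Core
  Pool.Agent.Results.MP_689404_al.SphereRank.Upper

/-- The weight of a length `n`: `(2r-1)^(-n/2)` for even `n`, `(2r-1)^(-(n-1)/2) / r` for odd `n`. -/
noncomputable def wt (r n : ℕ) : ℝ :=
  if Even n then 1 / (2 * r - 1 : ℝ) ^ (n / 2) else 1 / (r * (2 * r - 1 : ℝ) ^ (n / 2))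

theorem wt_even (r k : ℕ) : wt r (2 * k) = 1 / (2 * r - 1 : ℝ) ^ k := by
  have : 2 * k / 2 = k := by omega
  rw [wt, if_pos (even_two_mul k), this]

theorem wt_odd (r k : ℕ) : wt r (2 * k + 1) = 1 / (r * (2 * r - 1 : ℝ) ^ k) := by
  have : (2 * k + 1) / 2 = k := by omega
  rw [wt, if_neg (by simp), this]

theorem wt_nonneg (r n : ℕ) (hr : 1 ≤ r) : 0 ≤ wt r n := by
  have h1 : (1 : ℝ) ≤ r := by exact_mod_cast hr
  have : (0 : ℝ) < 2 * r - 1 := by linarith
  unfold wt
  split_ifs <;> positivity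

theorem gen {G ι : Type*} [Group G] [DecidableEq G] [Fintype ι] [DecidableEq ι] (f : ι → G)
    (hf : Function.Injective (FreeGroup.lift f)) (t : ι → ℕ) (V : Finset G)
    (h : ∀ i, ∃ (p : G) (T : Finset G), t i ≤ T.card ∧ ∀ g ∈ T, p * g ∈ V ∧ f i * (p * g) ∈ V) :
    ∑ i, t i ≤ V.card := by
  classical
  choose p T hT hV using h
  let I : Finset (G × ι) := univ.biUnion (fun a : ι => (T a).image (fun g => (p a * g, a)))
  have hI : ∑ i, t i ≤ I.card := by
    rw [card_biUnion]
    · apply sum_le_sum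
      intro a _
      rw [card_image_of_injective]
      · exact hT a
      · intro g g' hgg
        simpa using hgg
    · intro a _ b _ hne
      rw [Function.onFun, disjoint_left]
      intro x h1 h2
      rw [mem_image] at h1 h2
      obtain ⟨g, -, rfl⟩ := h1
      obtain ⟨g', -, h⟩ := h2
      exact hne (Prod.ext_iff.1 h).2.symm
  refine hI.trans (card_le _ hf I V ?_)
  intro x hx
  simp only [I, mem_biUnion, mem_univ, true_and, mem_image] at hx
  obtain ⟨a, g, hg, rfl⟩ := hx
  exact hV a g hg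

/-- one element: the number of the `g` in the ball of radius `N` moved inside the ball -/
theorem one {r : ℕ} (hr : 1 ≤ r) (a : FreeGroup (Fin r)) (N : ℕ) (hN : a.norm + 1 ≤ N) :
    ∃ (p : FreeGroup (Fin r)) (T : Finset (FreeGroup (Fin r))),
      wt r a.norm * (2 * r * (e r N - e r (a.norm / 2))) ≤ (T.card : ℝ) ∧
        ∀ g ∈ T, p * g ∈ ball r N ∧ a * (p * g) ∈ ball r N := by
  have h1r : (1 : ℝ) ≤ r := by exact_mod_cast hr
  have hq : (0 : ℝ) < 2 * r - 1 := by linarith
  have hqc : ((2 * r - 1 : ℕ) : ℝ) = 2 * r - 1 := by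
    rw [Nat.cast_sub (by omega)]
    push_cast
    ring
  have key : ∀ k L : ℕ, L + k = N → (e r N : ℝ) - e r k = (2 * r - 1 : ℝ) ^ k * e r L := by
    intro k L h
    rw [← h, e_add]
    push_cast
    rw [hqc]
    ring
  rcases Nat.even_or_odd' a.norm with ⟨k, hk | hk⟩
  · obtain ⟨p, hp⟩ := split_even a k (by omega)
    obtain ⟨L, hL⟩ : ∃ L, L + k = N := ⟨N - k, by omega⟩
    refine ⟨p, ball r L, ?_, fun g hg => by rw [← hL]; exact hp L g hg⟩
    rw [hk, wt_even, card_ball]
    have h2 : 2 * k / 2 = k := by omega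
    rw [h2, key k L hL]
    push_cast
    have : 1 / (2 * r - 1 : ℝ) ^ k * (2 * r * ((2 * r - 1 : ℝ) ^ k * e r L)) = 2 * r * e r L := by
      field_simp
    rw [this]
    linarith
  · obtain ⟨p, y, hp⟩ := split_odd a k hk
    obtain ⟨L, hL⟩ : ∃ L, L + 1 + k = N := ⟨N - 1 - k, by omega⟩
    refine ⟨p, tr r L y, ?_, fun g hg => by rw [← hL]; exact hp L g hg⟩
    rw [hk, wt_odd, card_tr _ hr]
    have h2 : (2 * k + 1) / 2 = k := by omega
    rw [h2, key k (L + 1) hL]
    push_cast
    have : 1 / (r * (2 * r - 1 : ℝ) ^ k) * (2 * r * ((2 * r - 1 : ℝ) ^ k * e r (L + 1))) =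
        2 * e r (L + 1) := by
      have hQ : (2 * r - 1 : ℝ) ^ k ≠ 0 := (pow_pos hq k).ne'
      have hr0 : (r : ℝ) ≠ 0 := by positivity
      generalize (2 * r - 1 : ℝ) ^ k = Q at *
      field_simp
    rw [this]

/-- **Kraft inequality**, finite families. -/
theorem kraft_le {r : ℕ} (hr : 1 ≤ r) {ι : Type*} [Fintype ι] (a : ι → FreeGroup (Fin r))
    (ha : Function.Injective (FreeGroup.lift a)) : ∑ i, wt r (a i).norm ≤ 1 := by
  classical
  have h1r : (1 : ℝ) ≤ r := by exact_mod_cast hr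
  obtain ⟨K, hK⟩ : ∃ K, ∀ i, (a i).norm + 1 ≤ K := by
    refine ⟨∑ i, ((a i).norm + 1), fun i => ?_⟩
    exact Finset.single_le_sum (f := fun i => (a i).norm + 1) (fun _ _ => Nat.zero_le _)
      (mem_univ i)
  -- the main estimate
  have main : ∀ N, K ≤ N →
      ∑ i, wt r (a i).norm * (2 * r * (e r N - e r ((a i).norm / 2))) ≤ 1 + 2 * r * (e r N : ℝ) := by
    intro N hN
    have h : ∀ i, ∃ (p : FreeGroup (Fin r)) (T : Finset (FreeGroup (Fin r))),
      wt r (a i).norm * (2 * r * (e r N - e r ((a i).norm / 2))) ≤ (T.card : ℝ) ∧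
        ∀ g ∈ T, p * g ∈ ball r N ∧ a i * (p * g) ∈ ball r N := fun i =>
      one hr (a i) N ((hK i).trans hN)
    choose p T hT hV using h
    have h1 := gen a ha (fun i => (T i).card) (ball r N) (fun i => ⟨p i, T i, le_rfl, hV i⟩)
    calc ∑ i, wt r (a i).norm * (2 * r * (e r N - e r ((a i).norm / 2)))
        ≤ ∑ i, ((T i).card : ℝ) := Finset.sum_le_sum (fun i _ => hT i)
      _ = ((∑ i, (T i).card : ℕ) : ℝ) := by push_cast; rfl
      _ ≤ ((ball r N).card : ℝ) := by exact_mod_cast h1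
      _ = 1 + 2 * r * (e r N : ℝ) := by rw [card_ball]; push_cast; ring
  by_contra hcon
  push Not at hcon
  set Sg := ∑ i, wt r (a i).norm with hSg
  set C := ∑ i, wt r (a i).norm * (2 * r * (e r ((a i).norm / 2) : ℝ)) with hC
  obtain ⟨n, hn⟩ := exists_nat_gt ((1 + C) / (Sg - 1))
  have hm := main (max K n) (le_max_left _ _)
  have hs : ∑ i, wt r (a i).norm * (2 * r * (e r (max K n) - e r ((a i).norm / 2))) =
      Sg * (2 * r * e r (max K n)) - C := by
    rw [hSg, hC, Finset.sum_mul, ← Finset.sum_sub_distrib]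
    refine Finset.sum_congr rfl (fun i _ => ?_)
    ring
  rw [hs] at hm
  have h2 : (n : ℝ) ≤ e r (max K n) := by
    exact_mod_cast (le_max_right K n).trans (le_e r (max K n) hr)
  have h3 : 0 < Sg - 1 := by linarith
  rw [div_lt_iff₀ h3] at hn
  have h4 : (n : ℝ) ≤ 2 * r * e r (max K n) := by
    have : (0 : ℝ) ≤ e r (max K n) := Nat.cast_nonneg _
    nlinarith
  nlinarith

/-- **Kraft inequality**, arbitrary families. -/
theorem kraft {r : ℕ} (hr : 1 ≤ r) {ι : Type*} (a : ι → FreeGroup (Fin r))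
    (ha : Function.Injective (FreeGroup.lift a)) :
    Summable (fun i => wt r (a i).norm) ∧ ∑' i, wt r (a i).norm ≤ 1 := by
  classical
  have key : ∀ s : Finset ι, ∑ i ∈ s, wt r (a i).norm ≤ 1 := by
    intro s
    have h1 : Function.Injective (FreeGroup.lift (fun i : s => a i)) := by
      have h2 : FreeGroup.lift (fun i : s => a i) =
          (FreeGroup.lift a).comp (FreeGroup.map (fun i : s => (i : ι))) := by
        ext i
        simp
      rw [h2]
      exact ha.comp (FreeGroup.map_injective Subtype.val_injective)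
    have h3 := kraft_le hr _ h1
    rwa [Finset.sum_coe_sort s (fun i => wt r (a i).norm)] at h3
  have hs := summable_of_sum_le (fun i => wt_nonneg r (a i).norm hr) key
  exact ⟨hs, hs.tsum_le_of_sum_le key⟩

end Pool.Agent.Y786.KR
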